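import Pool.Agent.H3.SQ.Nu

/-!
The partition theorem at regular cardinals `λ > ν⁺`, for coherent sequences with at most `ν` clubs.
-/

set_option autoImplicit false
set_option linter.unusedVariables false
set_option linter.unusedSectionVars false
set_option linter.deprecated false

universe u

open Cardinal Set Order

namespace Pool.Agent.H3.SQ

open Pool.Agent.W877.Sq

theorem reflectsAt_mono' {T T' : Set Ordinal.{u}} {α : Ordinal.{u}} (h : T ⊆ T')
    (hT : ReflectsAt T α) : ReflectsAt T' α := by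
  refine ⟨hT.1, fun x hx => hx.2, fun c hc => ?_⟩
  obtain ⟨x, hx, hxc⟩ := hT.2.2 c hc
  exact ⟨x, ⟨h hx.1, hx.2⟩, hxc⟩

theorem main_nu {lam nu : Cardinal.{u}} (hnu : ℵ₀ ≤ nu) (hnl : Order.succ nu < lam)
    (hreg : lam.IsRegular)
    {C : Ordinal.{u} → Set (Set Ordinal.{u})}
    (hC : IsCoherentSeq lam lam C)
    (hno : ¬ ∃ D, IsThread lam C D)
    {S : Set Ordinal.{u}} (hS : IsStationaryIn S lam.ord)
    (hcount : ∀ α ∈ S, #(C α) ≤ Cardinal.lift.{u + 1} nu) :
    ∃ P : Set.Iio lam.ord → Set.Iio nu.ord → Set Ordinal.{u},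
      (∀ b n, IsStationaryIn (P b n) lam.ord) ∧
      (∀ b n b' n', (b, n) ≠ (b', n') → Disjoint (P b n) (P b' n')) ∧
      (⋃ b, ⋃ n, P b n) = S ∧
      ∀ b, ∀ α < lam.ord,
        #{n | ¬ ReflectsAt (P b n) α} = Cardinal.lift.{u + 1} nu := by
  classical
  have hunc : ℵ₀ < lam := hnu.trans_lt ((lt_succ nu).trans hnl)
  have hW := reg_W hreg hunc
  -- the index type of a row
  let ι : Type (u + 1) := Set.Iio nu.ord
  have hι : #ι = Cardinal.lift.{u + 1} nu := by
    rw [Cardinal.mk_Iio_ordinal, card_ord]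
  have hιinf : ℵ₀ ≤ #ι := by
    rw [hι]
    exact aleph0_le_lift.2 hnu
  let J : Type (u + 1) := Option (ι × ι)
  have hJ : #J = #ι := by
    rw [mk_option, mk_prod, Cardinal.lift_id, mul_eq_self hιinf]
    exact add_one_eq hιinf
  obtain ⟨e⟩ : Nonempty (ι ≃ J) := Cardinal.eq.1 hJ.symm
  have hJinf : ℵ₀ ≤ #J := by rw [hJ]; exact hιinf
  have hJs : succ #J < #(Set.Iio lam.ord) := by
    rw [hJ, hι, mk_W, ← Cardinal.lift_succ, Cardinal.lift_lt]
    exact hnl
  obtain ⟨Q₀, hQ₀, hQ₀s, hQ₀d⟩ := solovay hW (stat_down hreg hunc hS)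
  obtain ⟨b₀⟩ := hW.nonempty
  obtain ⟨Q, hQ1, _, hQd, hQU⟩ := absorb hQ₀ hQ₀d b₀
  have hQs : ∀ b, IsStationary (Q b) := fun b => (hQ₀s b).mono (hQ1 b)
  have hQsub : ∀ b, up (Q b) ⊆ S := by
    rintro b _ ⟨x, hx, rfl⟩
    have h2 : x ∈ ⋃ i, Q i := Set.mem_iUnion.2 ⟨b, hx⟩
    rw [hQU] at h2
    exact h2
  -- the pieces of one block
  have hblock : ∀ b, ∃ R : J → Set (Set.Iio lam.ord),
      (∀ n, IsStationary (R n)) ∧ (∀ m n, m ≠ n → Disjoint (R m) (R n)) ∧ (⋃ n, R n) = Q b ∧
      ∀ α < lam.ord, #ι ≤ #{n | ¬ ReflectsAt (up (R n)) α} := by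
    intro b
    have hSb : IsStationaryIn (up (Q b)) lam.ord :=
      ⟨up_sub _, fun c hc => (stat_up hreg hunc (hQs b)).2 c hc⟩
    have hnot : ¬ ReflLt lam (Order.succ nu) (up (Q b)) := by
      intro hR
      apply hno
      exact thread_of_refl_local (nu := nu) hnu hnl hreg hC hSb
        (fun α hα => hcount α (hQsub b hα)) hR
    unfold ReflLt at hnot
    push Not at hnot
    obtain ⟨F, hFc, hFT, hFα⟩ := hnot
    have hFcard : #F ≤ #ι := by
      rw [Cardinal.lift_succ, Order.lt_succ_iff] at hFc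
      rw [hι]
      exact hFc
    have h0 : (0 : Ordinal.{u}) < lam.ord := hreg.ord_pos
    obtain ⟨T₀, hT₀, _⟩ := hFα 0 h0
    obtain ⟨t, ht⟩ : ∃ t : ι → F, Function.Surjective t := by
      obtain ⟨g⟩ := (Cardinal.le_def _ _).1 hFcard
      have : Nonempty F := ⟨⟨T₀, hT₀⟩⟩
      exact ⟨Function.invFun g, Function.invFun_surjective g.injective⟩
    let X : J → Set (Set.Iio lam.ord) := fun j => match j with
      | none => Q b
      | some p => Subtype.val ⁻¹' (t p.1).1
    have hX : ∀ j, IsStationary (X j) := by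
      intro j
      match j with
      | none => exact hQs b
      | some p => exact stat_down hreg hunc (hFT _ (t p.1).2).2
    have hXQ : ∀ j, X j ⊆ Q b := by
      intro j
      match j with
      | none => exact Set.Subset.rfl
      | some p =>
        intro x hx
        have h2 := (hFT _ (t p.1).2).1 (show x.1 ∈ (t p.1).1 from hx)
        exact up_mem.1 h2
    obtain ⟨R₀, hR₀, hR₀s, hR₀d⟩ := refine_disj_nu hW hJinf hJs X hX
    obtain ⟨R, hR1, hR2, hRd, hRU⟩ := absorb (fun j => (hR₀ j).trans (hXQ j)) hR₀d none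
    refine ⟨R, fun n => (hR₀s n).mono (hR1 n), hRd, hRU, ?_⟩
    intro α hα
    obtain ⟨T, hT, hTα⟩ := hFα α hα
    obtain ⟨k, hk⟩ := ht ⟨T, hT⟩
    have hmem : ∀ j : ι, (some (k, j) : J) ∈ {n | ¬ ReflectsAt (up (R n)) α} := by
      intro j hrefl
      apply hTα
      rw [hR2 _ (Option.some_ne_none _)] at hrefl
      refine reflectsAt_mono' ?_ hrefl
      rintro _ ⟨x, hx, rfl⟩
      have h1 : x.1 ∈ (t k).1 := hR₀ _ hx
      rwa [hk] at h1
    refine mk_le_of_injective
      (f := fun j => (⟨some (k, j), hmem j⟩ : {n | ¬ ReflectsAt (up (R n)) α})) ?_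
    intro i j hij
    have h2 : (some (k, i) : J) = some (k, j) := congrArg Subtype.val hij
    exact (Prod.mk.inj (Option.some.inj h2)).2
  choose R hRs hRd hRU hRα using hblock
  refine ⟨fun b n => up (R b (e n)), ?_, ?_, ?_, ?_⟩
  · intro b n
    exact ⟨up_sub _, fun c hc => (stat_up hreg hunc (hRs b (e n))).2 c hc⟩
  · intro b n b' n' hne
    have hd : Disjoint (R b (e n)) (R b' (e n')) := by
      by_cases hb : b = b'
      · subst hb
        exact hRd b _ _ fun h => hne (by rw [e.injective h])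
      · refine (hQd b b' hb).mono ?_ ?_
        · rw [← hRU b]
          exact Set.subset_iUnion _ _
        · rw [← hRU b']
          exact Set.subset_iUnion _ _
    exact (Set.disjoint_image_iff Subtype.val_injective).2 hd
  · have h1 : ∀ b, (⋃ n, up (R b (e n))) = up (Q b) := by
      intro b
      have h3 : (⋃ n, up (R b (e n))) = ⋃ j, up (R b j) :=
        e.surjective.iUnion_comp fun j => up (R b j)
      rw [h3, ← hRU b]
      exact (Set.image_iUnion).symm
    have h2 : (⋃ b, up (Q b)) = up (⋃ b, Q b) := (Set.image_iUnion).symm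
    refine (Set.iUnion_congr h1).trans (h2.trans ?_)
    rw [hQU]
    exact up_pre hS.1
  · intro b α hα
    apply le_antisymm
    · rw [← hι]
      exact mk_subtype_le _
    · rw [← hι]
      refine (hRα b α hα).trans ?_
      refine mk_le_of_injective (f := fun x : {n | ¬ ReflectsAt (up (R b n)) α} =>
        (⟨e.symm x.1, by
          have h := x.2
          show ¬ ReflectsAt (up (R b (e (e.symm x.1)))) α
          rw [e.apply_symm_apply]
          exact h⟩ : {n | ¬ ReflectsAt (up (R b (e n))) α})) ?_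
      intro x y hxy
      have h2 := congrArg Subtype.val hxy
      exact Subtype.ext (e.symm.injective h2)

end Pool.Agent.H3.SQ
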