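import Pool.Graph.R_seed8.W877.Sq.Local

/-!
Diagonal intersections, Fodor's lemma and Solovay's splitting theorem for the well-orders `W` with
`Reg W`.
-/

set_option autoImplicit false
set_option linter.unusedVariables false
set_option linter.unusedSectionVars false
set_option linter.deprecated false

universe u v

open Cardinal Set Order

namespace Pool.Agent.H3.SQ

open Pool.Agent.W877.Sq

variable {W : Type v} [LinearOrder W] [WellFoundedLT W]

/-- The diagonal intersection of clubs is a club. -/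
theorem diag_club (hW : Reg W) (D : W → Set W) (hD : ∀ a, IsClub (D a)) :
    IsClub {x : W | Lim x ∧ ∀ a < x, x ∈ D a} := by
  classical
  haveI := hW.noMax
  haveI := hW.nonempty
  apply isClub_of
  · intro b
    have hE : ∀ b : W, ∃ z, b < z ∧ ∀ a ≤ b, z ∈ D a := by
      intro b
      have hcl : IsClub (⋂ a : Set.Iic b, D a.1) := by
        refine IsClub.iInter hW.cof_ne ?_ fun a => hD a.1
        rw [hW.cof, Cardinal.lift_lt]
        exact hW.Iic_lt b
      obtain ⟨z, hz, hbz⟩ := isClub_unb hcl b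
      exact ⟨z, hbz, fun a ha => Set.mem_iInter.1 hz ⟨a, ha⟩⟩
    choose z hz1 hz2 using hE
    let s : ℕ → W := fun n => z^[n] b
    have hs : ∀ n, s (n + 1) = z (s n) := fun n => Function.iterate_succ_apply' _ _ _
    have hlt : ∀ n, s n < s (n + 1) := fun n => by rw [hs]; exact hz1 _
    have hmono : StrictMono s := strictMono_nat_of_lt_succ hlt
    have hne : {y : W | ∀ n, s n < y}.Nonempty := by
      obtain ⟨y, hy⟩ := hW.bound (A := Set.range s) (hW.inf_lt (by
        rw [le_aleph0_iff_set_countable]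
        exact Set.countable_range s))
      exact ⟨y, fun n => hy _ ⟨n, rfl⟩⟩
    let y := wellFounded_lt.min {y : W | ∀ n, s n < y} hne
    have hy : ∀ n, s n < y := wellFounded_lt.min_mem {y : W | ∀ n, s n < y} hne
    have hy2 : ∀ b' < y, ∃ n, b' < s n := by
      intro b' hb'
      by_contra hcon
      push Not at hcon
      have h1 : b' ∈ {y : W | ∀ n, s n < y} := fun n => (hlt n).trans_le (hcon (n + 1))
      exact wellFounded_lt.not_lt_min _ h1 hb'
    refine ⟨y, ⟨?_, ?_⟩, ?_⟩
    · refine ⟨⟨s 0, hy 0⟩, fun b' hb' => ?_⟩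
      obtain ⟨n, hn⟩ := hy2 b' hb'
      exact ⟨s n, Set.mem_univ _, hn, hy n⟩
    · intro a ha
      apply isClub_mem_of_acc (hD a)
      refine ⟨⟨s 0, hy 0⟩, fun b' hb' => ?_⟩
      obtain ⟨n, hn⟩ := hy2 (max a b') (max_lt ha hb')
      refine ⟨s (n + 1), ?_, ?_, hy _⟩
      · rw [hs]
        exact hz2 _ a ((le_max_left a b').trans hn.le)
      · exact ((le_max_right a b').trans_lt hn).trans (hlt n)
    · exact hy 0
  · intro y hy
    refine ⟨hy.lim, fun a ha => ?_⟩
    apply isClub_mem_of_acc (hD a)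
    refine ⟨hy.1, fun b hb => ?_⟩
    obtain ⟨z, hz, h1, h2⟩ := hy.2 (max a b) (max_lt ha hb)
    exact ⟨z, hz.2 a ((le_max_left a b).trans_lt h1), (le_max_right a b).trans_lt h1, h2⟩

/-- Fodor's lemma. -/
theorem fodor (hW : Reg W) {T : Set W} (hT : IsStationary T) (f : W → W)
    (hf : ∀ x ∈ T, f x < x) : ∃ g, IsStationary {x | x ∈ T ∧ f x = g} := by
  by_contra hcon
  push Not at hcon
  have h : ∀ g, ∃ D, IsClub D ∧ Disjoint {x | x ∈ T ∧ f x = g} D :=
    fun g => not_isStationary_iff.1 (hcon g)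
  choose D hD hdis using h
  obtain ⟨x, hxT, _, hx⟩ := hT (diag_club hW D hD)
  exact Set.disjoint_left.1 (hdis (f x)) ⟨hxT, rfl⟩ (hx _ (hf x hxT))

/-- Solovay's theorem: each stationary subset of `W` contains `#W` pairwise disjoint stationary
sets. -/
theorem solovay (hW : Reg W) {T : Set W} (hT : IsStationary T) :
    ∃ P : W → Set W, (∀ b, P b ⊆ T) ∧ (∀ b, IsStationary (P b)) ∧
      ∀ b b', b ≠ b' → Disjoint (P b) (P b') := by
  classical
  haveI := hW.noMax
  haveI := hW.nonempty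
  let S : Set W := T ∩ {y | Lim y}
  have hS : IsStationary S := stat_inter_club hW hT (lim_club hW)
  let W' : Set W := {x | x ∈ S ∧ ∃ c : Set W, (∀ z ∈ c, z < x) ∧ (∀ b < x, ∃ z ∈ c, b < z) ∧
    (∀ y < x, Acc c y → y ∈ c) ∧ Disjoint c S}
  have hW' : IsStationary W' := by
    intro C hC
    let C' : Set W := {y | Acc C y}
    have hC' : IsClub {y : W | Lim y ∧ ∀ a < y, y ∈ {z : W | ∃ w ∈ C, a < w ∧ w < z}} := by
      apply diag_club hW
      intro a
      obtain ⟨w, hw, haw⟩ := isClub_unb hC a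
      have h : {z : W | ∃ w ∈ C, a < w ∧ w < z} = {z | first a C < z} := by
        ext z
        constructor
        · rintro ⟨w, hw, haw, hwz⟩
          exact (first_le hw haw).trans_lt hwz
        · intro hz
          have h2 := first_spec (a := a) (c := C) ⟨w, hw, haw⟩
          exact ⟨_, h2.1, h2.2, hz⟩
      rw [h]
      exact Ioi_club hW _
    have hne : (S ∩ C').Nonempty := by
      obtain ⟨x, hxS, hxl, hx⟩ := hS hC'
      exact ⟨x, hxS, hxl.1, fun b hb => hx b hb⟩
    let x := wellFounded_lt.min (S ∩ C') hne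
    have hx : x ∈ S ∩ C' := wellFounded_lt.min_mem (S ∩ C') hne
    have hmin : ∀ y < x, y ∈ C' → y ∉ S := fun y hy h1 h2 =>
      wellFounded_lt.not_lt_min (S ∩ C') (⟨h2, h1⟩ : y ∈ S ∩ C') hy
    refine ⟨x, ⟨hx.1, ?_⟩, isClub_mem_of_acc hC hx.2⟩
    by_cases hcase : ∀ b < x, ∃ z ∈ C', b < z ∧ z < x
    · refine ⟨C' ∩ Set.Iio x, fun z hz => hz.2, ?_, ?_, ?_⟩
      · intro b hb
        obtain ⟨z, hz, h1, h2⟩ := hcase b hb
        exact ⟨z, ⟨hz, h2⟩, h1⟩
      · intro y hy hacc
        refine ⟨⟨hacc.1, fun b hb => ?_⟩, hy⟩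
        obtain ⟨z, hz, h1, h2⟩ := hacc.2 b hb
        obtain ⟨w, hw, h3, h4⟩ := hz.1.2 b h1
        exact ⟨w, hw, h3, h4.trans h2⟩
      · rw [Set.disjoint_left]
        intro y hy
        exact hmin y hy.2 hy.1
    · push Not at hcase
      obtain ⟨β, hβ, hno⟩ := hcase
      -- order successors
      have hsne : ∀ z : W, {w : W | z < w}.Nonempty := fun z => exists_gt z
      let sc : W → W := fun z => wellFounded_lt.min {w : W | z < w} (hsne z)
      have hsc1 : ∀ z, z < sc z := fun z => wellFounded_lt.min_mem {w : W | z < w} (hsne z)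
      have hsc2 : ∀ z w, z < w → sc z ≤ w := fun z w h =>
        not_lt.1 (wellFounded_lt.not_lt_min {w : W | z < w} h)
      refine ⟨{y | ∃ z ∈ C, β < z ∧ y = sc z ∧ y < x}, ?_, ?_, ?_, ?_⟩
      · rintro y ⟨z, _, _, _, h⟩
        exact h
      · intro b hb
        obtain ⟨z, hz, h1, h2⟩ := hx.2.2 (max b β) (max_lt hb hβ)
        obtain ⟨w, _, h3, h4⟩ := hx.1.2.2 z h2
        refine ⟨sc z, ⟨z, hz, (le_max_right _ _).trans_lt h1, rfl, ?_⟩, ?_⟩
        · exact (hsc2 z w h3).trans_lt h4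
        · exact ((le_max_left _ _).trans_lt h1).trans (hsc1 z)
      · intro y hy hacc
        exfalso
        have hC'y : y ∈ C' := by
          refine ⟨hacc.1, fun b hb => ?_⟩
          obtain ⟨p, hp, h1, h2⟩ := hacc.2 b hb
          obtain ⟨q, ⟨z, hz, _, hqz, _⟩, h3, h4⟩ := hacc.2 p h2
          refine ⟨z, hz, ?_, ?_⟩
          · by_contra hcon
            have h5 : z < p := (not_lt.1 hcon).trans_lt h1
            have h6 := hsc2 z p h5
            rw [← hqz] at h6
            exact absurd h3 (not_lt.2 h6)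
          · have h7 := hsc1 z
            rw [← hqz] at h7
            exact h7.trans h4
        obtain ⟨b, hb⟩ := hacc.1
        obtain ⟨p, ⟨z, _, hz, hpz, _⟩, h1, h2⟩ := hacc.2 b hb
        have h3 : β < y := by
          refine hz.trans (lt_trans ?_ h2)
          rw [hpz]
          exact hsc1 z
        exact absurd hy (not_lt.2 (hno y hC'y h3))
      · rw [Set.disjoint_left]
        rintro y ⟨z, _, _, hyz, _⟩ hyS
        obtain ⟨w, _, h1, h2⟩ := hyS.2.2 z (by rw [hyz]; exact hsc1 z)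
        have h3 := hsc2 z w h1
        rw [← hyz] at h3
        exact absurd h2 (not_lt.2 h3)
  have hch : ∀ x, x ∈ W' → ∃ c : Set W, (∀ z ∈ c, z < x) ∧ (∀ b < x, ∃ z ∈ c, b < z) ∧
    (∀ y < x, Acc c y → y ∈ c) ∧ Disjoint c S := fun x hx => hx.2
  choose! c hc1 hc2 hc3 hc4 using hch
  let V : W → W → Set W := fun η g => {x | (x ∈ W' ∧ η < x) ∧ first η (c x) = g}
  by_cases hcase : ∃ η, ∀ b, ∃ g, b < g ∧ IsStationary (V η g)
  · obtain ⟨η, hη⟩ := hcase
    have hcard : #W ≤ #{g : W | IsStationary (V η g)} := by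
      by_contra hcon
      rw [not_le] at hcon
      obtain ⟨b, hb⟩ := hW.bound hcon
      obtain ⟨g, hg1, hg2⟩ := hη b
      exact absurd (hb g hg2) (not_lt.2 hg1.le)
    obtain ⟨e⟩ := (Cardinal.le_def _ _).1 hcard
    refine ⟨fun b => V η (e b).1, ?_, fun b => (e b).2, ?_⟩
    · intro b x hx
      exact hx.1.1.1.1
    · intro b b' hne
      rw [Set.disjoint_left]
      rintro x hx hx'
      exact hne (e.injective (Subtype.ext (hx.2.symm.trans hx'.2)))
  · exfalso
    push Not at hcase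
    choose h hh using hcase
    have hN : ∀ η, ¬ IsStationary {x | (x ∈ W' ∧ η < x) ∧ h η < first η (c x)} := by
      intro η hst
      obtain ⟨g, hg⟩ := fodor hW hst (fun x => first η (c x)) (by
        rintro x ⟨⟨hxW, hηx⟩, _⟩
        obtain ⟨z, hz, hηz⟩ := hc2 x hxW η hηx
        exact hc1 x hxW _ (first_spec ⟨z, hz, hηz⟩).1)
      obtain ⟨x, hx⟩ := hg.nonempty
      have hlt : h η < g := by
        have := hx.1.2
        rwa [hx.2] at this
      refine hh η g hlt (hg.mono ?_)
      rintro y ⟨hy, hyg⟩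
      exact ⟨hy.1, hyg⟩
    have hD := fun η => not_isStationary_iff.1 (hN η)
    choose D hD1 hD2 using hD
    have hdc := diag_club hW (fun η => D η ∩ {y | h η < y})
      (fun η => (hD1 η).inter hW.cof_ne (Ioi_club hW _))
    have hst := stat_inter_club hW hW' hdc
    obtain ⟨γ, hγW, hγl, hγ⟩ := hst.nonempty
    obtain ⟨x, ⟨hxW, _, hx⟩, hγx⟩ := hst (Ioi_club hW γ)
    have hγx' : γ < x := hγx
    have hacc : Acc (c x) γ := by
      refine ⟨hγl.1, fun b hb => ?_⟩
      have h1 := hx b (hb.trans hγx')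
      have h2 := hγ b hb
      obtain ⟨z, hz, hbz⟩ := hc2 x hxW b (hb.trans hγx')
      have h3 := first_spec (a := b) (c := c x) ⟨z, hz, hbz⟩
      refine ⟨_, h3.1, h3.2, ?_⟩
      have h4 : ¬ (h b < first b (c x)) := fun h5 =>
        Set.disjoint_left.1 (hD2 b) ⟨⟨hxW, hb.trans hγx'⟩, h5⟩ h1.1
      exact (not_lt.1 h4).trans_lt h2.2
    exact Set.disjoint_left.1 (hc4 x hxW) (hc3 x hxW γ hγx' hacc) hγW.1

end Pool.Agent.H3.SQ
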