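import Pool.Agent.H3.SQ.Part
import Pool.Agent.H3.SQ.Solovay

/-!
Disjoint refinements of families of `ν` stationary sets, `ν⁺ < |W|`.
-/

set_option autoImplicit false
set_option linter.unusedVariables false
set_option linter.unusedSectionVars false
set_option linter.deprecated false

universe u v

open Cardinal Set Order

namespace Pool.Agent.H3.SQ

open Pool.Agent.W877.Sq

/-- Sets with more than `#ι` elements, indexed by `ι`, have an injective choice function. -/
theorem inj_choice {ι B : Type v} (A : ι → Set B) (hA : ∀ i, #ι < #(A i)) :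
    ∃ f : ι → B, Function.Injective f ∧ ∀ i, f i ∈ A i := by
  classical
  obtain ⟨inst, hr⟩ := exists_wellOrder ι
  have hwf : WellFounded (fun a b : ι => a < b) := hr.wf
  have hex : ∀ (i : ι) (g : ∀ j, j < i → B), ∃ b ∈ A i, ∀ j (h : j < i), b ≠ g j h := by
    intro i g
    by_contra hcon
    push Not at hcon
    have hsub : A i ⊆ Set.range (fun j : {j // j < i} => g j.1 j.2) := by
      intro b hb
      obtain ⟨j, h, e⟩ := hcon b hb
      exact ⟨⟨j, h⟩, e.symm⟩
    have h1 : #(A i) ≤ #ι :=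
      (mk_le_mk_of_subset hsub).trans (mk_range_le.trans (mk_subtype_le _))
    exact absurd (hA i) (not_lt.2 h1)
  choose F hF1 hF2 using hex
  let f : ι → B := hwf.fix (fun i g => F i g)
  have hf : ∀ i, f i = F i (fun j _ => f j) := fun i => hwf.fix_eq _ i
  refine ⟨f, ?_, fun i => ?_⟩
  · intro i j hij
    rcases lt_trichotomy i j with h | h | h
    · exact absurd hij.symm (by
        rw [hf j]
        exact hF2 j _ i h)
    · exact h
    · exact absurd hij (by
        rw [hf i]
        exact hF2 i _ j h)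
  · rw [hf i]
    exact hF1 i _

variable {W : Type v} [LinearOrder W] [WellFoundedLT W]

/-- Every family of `#ι` stationary sets has a disjoint refinement if `(#ι)⁺ < #W`. -/
theorem refine_disj_nu (hW : Reg W) {ι : Type v} (hinf : ℵ₀ ≤ #ι) (hsucc : succ #ι < #W)
    (X : ι → Set W) (hX : ∀ i, IsStationary (X i)) :
    ∃ P : ι → Set W, (∀ i, P i ⊆ X i) ∧ (∀ i, IsStationary (P i)) ∧
      ∀ i j, i ≠ j → Disjoint (P i) (P j) := by
  classical
  let B : Type v := (succ #ι).out
  have hB : #B = succ #ι := mk_out _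
  obtain ⟨emb⟩ : Nonempty (B ↪ W) := (Cardinal.le_def _ _).1 (by rw [hB]; exact hsucc.le)
  have hU := fun i => solovay hW (hX i)
  choose Q hQ1 hQ2 hQ3 using hU
  let P : ι → B → Set W := fun r b => Q r (emb b)
  have hPd : ∀ r b b', b ≠ b' → Disjoint (P r b) (P r b') :=
    fun r b b' h => hQ3 r _ _ fun e => h (emb.injective e)
  let G : ι → ι → Set B := fun r i => {b | IsStationary (X i ∩ P r b)}
  let Ct : ι → ι → Prop := fun r i => #ι < #(G r i)
  let Sym : ι → ι → Prop := fun r i => Ct r i ∧ Ct i r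
  have hCtself : ∀ i, Ct i i := by
    intro i
    have hG : G i i = Set.univ := by
      ext b
      simp only [Set.mem_univ, iff_true]
      show IsStationary (X i ∩ P i b)
      rw [Set.inter_eq_right.2 (hQ1 i (emb b))]
      exact hQ2 i _
    show #ι < #(G i i)
    rw [hG, mk_univ, hB]
    exact lt_succ _
  -- a maximal set of representatives
  obtain ⟨R, hR⟩ := zorn_subset {R : Set ι | R.Pairwise fun r i => ¬ Sym r i} (by
    intro c hc hch
    refine ⟨⋃₀ c, ?_, fun s hs => Set.subset_sUnion_of_mem hs⟩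
    exact (Set.pairwise_sUnion hch.directedOn).2 fun a ha => hc ha)
  have hrep : ∀ i, ∃ r ∈ R, Ct r i := by
    intro i
    by_contra hcon
    push Not at hcon
    have hmem : insert i R ∈ {R : Set ι | R.Pairwise fun r i => ¬ Sym r i} := by
      refine Set.pairwise_insert.2 ⟨hR.1, fun b hb _ => ⟨fun h => ?_, fun h => ?_⟩⟩
      · exact hcon b hb h.2
      · exact hcon b hb h.1
    have h1 := hR.2 hmem (Set.subset_insert _ _) (Set.mem_insert _ _)
    exact hcon i h1 (hCtself i)
  choose ρ hρR hρ using hrep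
  -- the pieces which are not used
  let D : ι → Set B := fun r => ⋃ i : {i // ¬ Ct r i}, G r i.1
  have hD : ∀ r, #(D r) ≤ #ι := by
    intro r
    refine (mk_iUnion_le _).trans ?_
    refine (mul_le_mul' (mk_subtype_le _) (ciSup_le' fun i => not_lt.1 i.2)).trans ?_
    rw [mul_eq_self hinf]
  have hav : ∀ i, #ι < #(G (ρ i) i \ D (ρ i) : Set B) := by
    intro i
    by_contra hcon
    rw [not_lt] at hcon
    have h1 : #(G (ρ i) i) ≤ #ι := by
      have hsub : G (ρ i) i ⊆ (G (ρ i) i \ D (ρ i)) ∪ D (ρ i) := by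
        intro b hb
        by_cases h : b ∈ D (ρ i)
        · exact Or.inr h
        · exact Or.inl ⟨hb, h⟩
      refine (mk_le_mk_of_subset hsub).trans ((mk_union_le _ _).trans ?_)
      refine (add_le_add hcon (hD _)).trans ?_
      rw [add_eq_self hinf]
    exact absurd (hρ i) (not_lt.2 h1)
  obtain ⟨β, hβinj, hβ⟩ := inj_choice (fun i => G (ρ i) i \ D (ρ i)) hav
  let T : ι → Set W := fun i => X i ∩ P (ρ i) (β i)
  have hT : ∀ i, IsStationary (T i) := fun i => (hβ i).1
  have hTd : ∀ i j, i ≠ j → ¬ IsStationary (T i ∩ T j) := by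
    intro i j hij hst
    by_cases he : ρ i = ρ j
    · have hd := hPd (ρ i) (β i) (β j) fun h => hij (hβinj h)
      obtain ⟨x, hx⟩ := hst.nonempty
      refine Set.disjoint_left.1 hd hx.1.2 ?_
      have := hx.2.2
      rwa [← he] at this
    · have hns := hR.1 (hρR i) (hρR j) he
      have key : ∀ i j, ¬ Ct (ρ i) (ρ j) → ¬ IsStationary (T i ∩ T j) := by
        intro i j hc hst
        have h1 : β i ∉ G (ρ i) (ρ j) := fun h => (hβ i).2 (Set.mem_iUnion.2 ⟨⟨ρ j, hc⟩, h⟩)
        apply h1
        show IsStationary (X (ρ j) ∩ P (ρ i) (β i))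
        refine hst.mono ?_
        rintro x ⟨h2, h3⟩
        exact ⟨hQ1 _ _ h3.2, h2.2⟩
      by_cases hc : Ct (ρ i) (ρ j)
      · have hc' : ¬ Ct (ρ j) (ρ i) := fun h => hns ⟨hc, h⟩
        refine key j i hc' ?_
        rwa [Set.inter_comm]
      · exact key i j hc hst
  refine ⟨fun i => T i \ ⋃ j : {j // j ≠ i}, T j.1, ?_, ?_, ?_⟩
  · exact fun i => Set.diff_subset.trans Set.inter_subset_left
  · intro i
    have h1 : IsStationary ((T i \ ⋃ j : {j // j ≠ i}, T j.1) ∪ ⋃ j : {j // j ≠ i}, (T i ∩ T j.1)) := by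
      refine (hT i).mono ?_
      intro x hx
      by_cases h : x ∈ ⋃ j : {j // j ≠ i}, T j.1
      · obtain ⟨j, hj⟩ := Set.mem_iUnion.1 h
        exact Or.inr (Set.mem_iUnion.2 ⟨j, hx, hj⟩)
      · exact Or.inl ⟨hx, h⟩
    rcases (isStationary_union_iff hW.cof_ne).1 h1 with h | h
    · exact h
    · exfalso
      rw [isStationary_iUnion_iff hW.cof_ne] at h
      · obtain ⟨j, hj⟩ := h
        exact hTd i j.1 (Ne.symm j.2) hj
      · rw [hW.cof, Cardinal.lift_lt]
        exact (mk_subtype_le _).trans_lt ((lt_succ _).trans hsucc)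
  · intro i j hij
    rw [Set.disjoint_left]
    rintro x ⟨h1, _⟩ ⟨_, h2⟩
    exact h2 (Set.mem_iUnion.2 ⟨⟨i, hij⟩, h1⟩)

end Pool.Agent.H3.SQ
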