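import Pool.Graph.R_seed8.W877.Sq.Local

/-!
Disjoint refinements of countable families of stationary sets, and splitting stationary subsets
of a successor cardinal (Ulam matrices).
-/

set_option autoImplicit false
set_option linter.unusedVariables false
set_option linter.unusedSectionVars false
set_option linter.deprecated false

universe u v

open Cardinal Set Order

namespace Pool.Agent.H3.SQ

open Pool.Agent.W877.Sq

variable {W : Type v} [LinearOrder W] [WellFoundedLT W]

/-- Ulam matrix: if every proper initial segment of `W` has at most `#K < #W` elements, then each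
stationary set contains `#W` pairwise disjoint stationary sets. -/
theorem ulam (hW : Reg W) {K : Type v} (hK : #K < #W) (hsm : ∀ x : W, #(Set.Iio x) ≤ #K)
    {T : Set W} (hT : IsStationary T) :
    ∃ P : W → Set W, (∀ b, P b ⊆ T) ∧ (∀ b, IsStationary (P b)) ∧
      ∀ b b', b ≠ b' → Disjoint (P b) (P b') := by
  classical
  have hf : ∀ x : W, Nonempty (Set.Iio x ↪ K) := fun x => (Cardinal.le_def _ _).1 (hsm x)
  have f : ∀ x : W, Set.Iio x ↪ K := fun x => (hf x).some
  let A : K → W → Set W := fun k b => {x | x ∈ T ∧ ∃ h : b < x, f x ⟨b, h⟩ = k}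
  have h1 : ∀ b, ∃ k, IsStationary (A k b) := by
    intro b
    have hst : IsStationary (⋃ k, A k b) := by
      refine (stat_inter_club hW hT (Ioi_club hW b)).mono ?_
      rintro x ⟨hx, hb⟩
      exact Set.mem_iUnion.2 ⟨f x ⟨b, hb⟩, hx, hb, rfl⟩
    refine (isStationary_iUnion_iff hW.cof_ne ?_).1 hst
    rw [hW.cof, Cardinal.lift_lt]
    exact hK
  choose k hk using h1
  obtain ⟨a, ha⟩ := Cardinal.infinite_pigeonhole_card k (#W) le_rfl hW.unc.le (by
    rw [hW.reg.cof_ord]
    exact hK)
  obtain ⟨e⟩ := (Cardinal.le_def _ _).1 ha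
  refine ⟨fun b => A a (e b).1, fun b x hx => hx.1, fun b => ?_, ?_⟩
  · have h2 : k (e b).1 = a := (e b).2
    have h3 := hk (e b).1
    rw [h2] at h3
    exact h3
  · intro b b' hne
    rw [Set.disjoint_left]
    rintro x ⟨_, h, h3⟩ ⟨_, h', h4⟩
    have h5 := (f x).injective (h3.trans h4.symm)
    have h6 : (e b).1 = (e b').1 := Subtype.mk.inj h5
    exact hne (e.injective (Subtype.ext h6))

/-- A family of pairwise disjoint subsets of `S` can be enlarged to a partition of `S`. -/
theorem absorb {Z ι : Type*} {S : Set Z} {Q : ι → Set Z} (hQ : ∀ i, Q i ⊆ S)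
    (hd : ∀ i j, i ≠ j → Disjoint (Q i) (Q j)) (i₀ : ι) :
    ∃ Q' : ι → Set Z, (∀ i, Q i ⊆ Q' i) ∧ (∀ i, i ≠ i₀ → Q' i = Q i) ∧
      (∀ i j, i ≠ j → Disjoint (Q' i) (Q' j)) ∧ (⋃ i, Q' i) = S := by
  classical
  let Q' : ι → Set Z := fun i => if i = i₀ then S \ ⋃ j ∈ {j | j ≠ i₀}, Q j else Q i
  have e0 : Q' i₀ = S \ ⋃ j ∈ {j | j ≠ i₀}, Q j := if_pos rfl
  have e1 : ∀ i, i ≠ i₀ → Q' i = Q i := fun i h => if_neg h
  have hdis : ∀ i, i ≠ i₀ → Disjoint (Q' i) (Q' i₀) := by
    intro i h
    rw [e0, e1 i h, Set.disjoint_left]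
    rintro x hx ⟨_, h2⟩
    exact h2 (Set.mem_biUnion (show i ∈ {j | j ≠ i₀} from h) hx)
  refine ⟨Q', ?_, e1, ?_, ?_⟩
  · intro i
    by_cases h : i = i₀
    · subst h
      rw [e0]
      intro x hx
      refine ⟨hQ _ hx, fun h2 => ?_⟩
      simp only [Set.mem_iUnion, Set.mem_setOf_eq] at h2
      obtain ⟨j, hj, hxj⟩ := h2
      exact Set.disjoint_left.1 (hd _ _ hj) hxj hx
    · rw [e1 i h]
  · intro i j hij
    by_cases h : i = i₀
    · subst h
      exact (hdis j (Ne.symm hij)).symm
    · by_cases h' : j = i₀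
      · subst h'
        exact hdis i h
      · rw [e1 i h, e1 j h']
        exact hd i j hij
  · apply Set.Subset.antisymm
    · apply Set.iUnion_subset
      intro i
      by_cases h : i = i₀
      · subst h
        rw [e0]
        exact Set.diff_subset
      · rw [e1 i h]
        exact hQ i
    · intro x hx
      by_cases h : ∃ j, j ≠ i₀ ∧ x ∈ Q j
      · obtain ⟨j, hj, hxj⟩ := h
        refine Set.mem_iUnion.2 ⟨j, ?_⟩
        rw [e1 j hj]
        exact hxj
      · refine Set.mem_iUnion.2 ⟨i₀, ?_⟩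
        rw [e0]
        refine ⟨hx, fun h2 => h ?_⟩
        simp only [Set.mem_iUnion, Set.mem_setOf_eq] at h2
        obtain ⟨j, hj, hxj⟩ := h2
        exact ⟨j, hj, hxj⟩

/-- One step of the refinement. -/
theorem step (hW : Reg W) {K : Type v} (hK : #K < #W) (hsm : ∀ x : W, #(Set.Iio x) ≤ #K)
    (R : ℕ → Set W) (hR : ∀ n, IsStationary (R n)) :
    ∃ P : Set W, P ⊆ R 0 ∧ IsStationary P ∧ ∀ n, IsStationary (R (n + 1) \ P) := by
  obtain ⟨Q, hQ, hQs, hQd⟩ := ulam hW hK hsm (hR 0)
  let bad : ℕ → Set W := fun n => {b | ¬ IsStationary (R (n + 1) \ Q b)}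
  have hbad : ∀ n, (bad n).Subsingleton := by
    intro n b hb b' hb'
    by_contra hne
    have h : IsStationary ((R (n + 1) \ Q b) ∪ (R (n + 1) \ Q b')) := by
      refine (hR (n + 1)).mono ?_
      intro x hx
      by_cases h1 : x ∈ Q b
      · exact Or.inr ⟨hx, fun h2 => Set.disjoint_left.1 (hQd b b' hne) h1 h2⟩
      · exact Or.inl ⟨hx, h1⟩
    rcases (isStationary_union_iff hW.cof_ne).1 h with h | h
    · exact hb h
    · exact hb' h
  have hc : (⋃ n, bad n).Countable := Set.countable_iUnion fun n => (hbad n).countable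
  have hun : ¬ (Set.univ : Set W).Countable := by
    rw [← le_aleph0_iff_set_countable, Cardinal.mk_univ, not_le]
    exact hW.unc
  obtain ⟨b, hb⟩ : ∃ b, b ∉ ⋃ n, bad n := by
    by_contra hcon
    push Not at hcon
    exact hun (hc.mono fun x _ => hcon x)
  refine ⟨Q b, hQ b, hQs b, fun n => ?_⟩
  by_contra h
  exact hb (Set.mem_iUnion.2 ⟨n, h⟩)

/-- Every sequence of stationary sets has a disjoint refinement. -/
theorem refine_disj (hW : Reg W) {K : Type v} (hK : #K < #W) (hsm : ∀ x : W, #(Set.Iio x) ≤ #K)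
    (T : ℕ → Set W) (hT : ∀ n, IsStationary (T n)) :
    ∃ P : ℕ → Set W, (∀ n, P n ⊆ T n) ∧ (∀ n, IsStationary (P n)) ∧
      ∀ m n, m ≠ n → Disjoint (P m) (P n) := by
  classical
  have hst := fun R : {R : ℕ → Set W // ∀ n, IsStationary (R n)} => step hW hK hsm R.1 R.2
  choose pick hp1 hp2 hp3 using hst
  let next : {R : ℕ → Set W // ∀ n, IsStationary (R n)} → {R : ℕ → Set W // ∀ n, IsStationary (R n)} :=
    fun R => ⟨fun n => R.1 (n + 1) \ pick R, fun n => hp3 R n⟩
  let seq : ℕ → {R : ℕ → Set W // ∀ n, IsStationary (R n)} := fun n => next^[n] ⟨T, hT⟩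
  have hseq : ∀ n, seq (n + 1) = next (seq n) := fun n => Function.iterate_succ_apply' _ _ _
  have hsub : ∀ n m, (seq n).1 m ⊆ T (n + m) := by
    intro n
    induction n with
    | zero => intro m; simp [seq]
    | succ n ih =>
      intro m
      rw [hseq]
      intro x hx
      have := ih (m + 1) hx.1
      have e : n + (m + 1) = n + 1 + m := by omega
      rwa [e] at this
  have hdis : ∀ n j m, Disjoint ((seq (n + 1 + j)).1 m) (pick (seq n)) := by
    intro n j
    induction j with
    | zero =>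
      intro m
      rw [Nat.add_zero, hseq]
      exact Set.disjoint_sdiff_left
    | succ j ih =>
      intro m
      have e : n + 1 + (j + 1) = (n + 1 + j) + 1 := by omega
      rw [e, hseq]
      exact (ih (m + 1)).mono_left Set.diff_subset
  have hlt : ∀ m n, m < n → Disjoint (pick (seq m)) (pick (seq n)) := by
    intro m n h
    obtain ⟨j, rfl⟩ := Nat.exists_eq_add_of_lt h
    have e : m + j + 1 = m + 1 + j := by omega
    rw [e]
    exact ((hdis m j 0).mono_left (hp1 _)).symm
  refine ⟨fun n => pick (seq n), fun n => (hp1 _).trans ?_, fun n => hp2 _, ?_⟩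
  · have := hsub n 0
    rwa [Nat.add_zero] at this
  · intro m n hmn
    rcases lt_or_gt_of_ne hmn with h | h
    · exact hlt m n h
    · exact (hlt n m h).symm

end Pool.Agent.H3.SQ
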